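import Pool.Agent.Y541.Final
import Pool.Agent.Y541.Gauss

/-!
# Random linear systems can be solved with `n^2 log^2 (n/ε)` exact arithmetic operations

For each of the three ensembles (Gaussian, Rademacher, Bernoulli) one fixed program solves, for all
matrices in events whose probabilities tend to `1`, the system `A x = b` to accuracy `ε` with
`O(n^2 log^2 (n/ε))` exact arithmetic operations. Hence the answer to the question is positive for
every value `w > 2` of the matrix multiplication exponent.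
-/

set_option autoImplicit false

namespace Pool.Agent.Results.MP_9b7f10_lc.RandomSystemsQuadratic

open Pool.Agent.Y541 Matrix MeasureTheory ProbabilityTheory Filter
open scoped ENNReal Topology

/-- the three ensembles -/
inductive Ensemble
  | gaussian
  | rademacher
  | bernoulli

/-- The distribution of the entries: standard Gaussian, uniform on `{-1, 1}`, or uniform on
`{0, 1}`. -/
noncomputable def Ensemble.law : Ensemble → Measure ℝ
  | .gaussian => gaussianReal 0 1
  | .rademacher => (1 / 2 : ℝ≥0∞) • Measure.dirac (-1) + (1 / 2 : ℝ≥0∞) • Measure.dirac 1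
  | .bernoulli => (1 / 2 : ℝ≥0∞) • Measure.dirac 0 + (1 / 2 : ℝ≥0∞) • Measure.dirac 1

/-- The set of the families `x` of `n^2` numbers such that the matrix with the entries `x (i, j)`
is in `E`. -/
def event {n : ℕ} (E : Set (Matrix (Fin n) (Fin n) ℝ)) : Set (Fin n × Fin n → ℝ) :=
  {x | Matrix.of (fun i j => x (i, j)) ∈ E}

/-- The probability that the random `n × n` matrix with independent entries, each with the
distribution `e.law`, is in `E`. -/
noncomputable def Ensemble.prob (e : Ensemble) {n : ℕ} (E : Set (Matrix (Fin n) (Fin n) ℝ)) :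
    ℝ≥0∞ :=
  Measure.pi (fun _ : Fin n × Fin n => e.law) (event E)

/-- the Euclidean norm -/
noncomputable def norm2 {n : ℕ} (v : Fin n → ℝ) : ℝ := Real.sqrt (∑ i, v i ^ 2)

/-- There are constants `δ > 0`, `C`, `k` and events `E_n` whose probabilities tend to `1` such that
the program `P` solves, for every `A` in `E_n`, every `b` and every `ε` in `(0, 1)`, the system
`A x = b` to accuracy `ε` with at most `C n^(w - δ) log^k (n/ε)` steps. -/
def SolvesRandom (P : Program) (e : Ensemble) (w : ℝ) : Prop :=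
  ∃ (δ C : ℝ) (k : ℕ) (E : ∀ n : ℕ, Set (Matrix (Fin n) (Fin n) ℝ)), 0 < δ ∧
    (∀ n, MeasurableSet (event (E n))) ∧ Tendsto (fun n => e.prob (E n)) atTop (𝓝 1) ∧
    ∀ (n : ℕ) (A : Matrix (Fin n) (Fin n) ℝ) (b : Fin n → ℝ) (ε : ℝ),
      1 ≤ n → A ∈ E n → 0 < ε → ε < 1 →
        ∃ (t : ℕ) (s : State), Run P (State.init n A b ε) t s ∧
          norm2 (A *ᵥ s.output n - b) ≤ ε * norm2 b ∧
          (t : ℝ) ≤ C * (n : ℝ) ^ (w - δ) * Real.log (n / ε) ^ k

theorem norm2_eq {n : ℕ} (v : Fin n → ℝ) : norm2 v = nrm v := by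
  unfold norm2 nrm
  rw [EuclideanSpace.norm_eq]
  simp

theorem tendsto_prob (e : Ensemble) : Tendsto (fun n => e.prob (good n)) atTop (𝓝 1) := by
  cases e with
  | gaussian => exact tendsto_gs
  | rademacher => exact tendsto_two (by norm_num) (by norm_num) (by norm_num)
  | bernoulli => exact tendsto_two (by norm_num) (by norm_num) (by norm_num)

/-- **One program gives a positive answer for the three ensembles and for every value `w > 2` of the
matrix multiplication exponent.** -/
theorem result : ∃ P : Program, ∀ (e : Ensemble) (w : ℝ), 2 < w → SolvesRandom P e w := by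
  refine ⟨solveP, fun e w hw => ⟨w - 2, 70000 * 4360, 2, good, by linarith,
    measurableSet_good, tendsto_prob e, ?_⟩⟩
  intro n A b ε _ hA hε hε1
  obtain ⟨hn, h1, h2⟩ := hA
  have hn3 : (3 : ℝ) ≤ n := by exact_mod_cast hn
  have hn0 : (0 : ℝ) < n := by linarith
  have hsA : 0 < 1 / (256 * (n : ℝ) ^ 4) := by positivity
  have hlow : ∀ v, 1 / (256 * (n : ℝ) ^ 4) * nrm v ≤ nrm (A *ᵥ v) := by
    intro v
    rw [one_div_mul_eq_div, div_le_iff₀ (by positivity), mul_comm]
    exact h1 v
  have hK : 1 ≤ 256 * (n : ℝ) ^ 6 := by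
    have : (1 : ℝ) ≤ (n : ℝ) ^ 6 := one_le_pow₀ (by linarith)
    linarith
  have hS : ∑ i, ∑ j, |A i j| ≤ (n : ℝ) ^ 2 * (256 * (n : ℝ) ^ 6) *
      (1 / (256 * (n : ℝ) ^ 4)) := by
    have : (n : ℝ) ^ 2 * (256 * (n : ℝ) ^ 6) * (1 / (256 * (n : ℝ) ^ 4)) = (n : ℝ) ^ 4 := by
      field_simp
    rw [this]
    exact h2
  obtain ⟨t, s, hr, -, hs, ht⟩ := solve_log (by omega) A b hsA hlow hK hS hε hε1
  refine ⟨t, s, hr, by rw [norm2_eq, norm2_eq]; exact hs, ht.trans ?_⟩
  have e1 : (n : ℝ) ^ (w - (w - 2)) = (n : ℝ) ^ 2 := by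
    rw [sub_sub_cancel]
    exact_mod_cast Real.rpow_natCast (n : ℝ) 2
  rw [e1]
  have hlog : 1 ≤ Real.log n := by
    rw [Real.le_log_iff_exp_le hn0]
    have := Real.exp_one_lt_d9
    linarith
  have hε0 : 0 ≤ Real.log (1 / ε) := Real.log_nonneg (by rw [le_div_iff₀ hε]; linarith)
  have e2 : Real.log (n / ε) = Real.log n + Real.log (1 / ε) := by
    rw [div_eq_mul_one_div, Real.log_mul hn0.ne' (by positivity)]
  have e3 : Real.log (256 * (n : ℝ) ^ 6) = 8 * Real.log 2 + 6 * Real.log n := by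
    rw [Real.log_mul (by norm_num) (by positivity), Real.log_pow,
      show (256 : ℝ) = 2 ^ 8 by norm_num, Real.log_pow]
    push_cast
    ring
  have hl2 := Real.log_two_lt_d9
  set a := Real.log n with ha
  set c := Real.log (1 / ε) with hc
  rw [e2, e3]
  have e4 : 15 * (1 + a) + 3 * (8 * Real.log 2 + 6 * a) ≤ 66 * (a + c) := by linarith
  have e5 : 0 ≤ 15 * (1 + a) + 3 * (8 * Real.log 2 + 6 * a) := by
    have := Real.log_two_gt_d9
    linarith
  have e6 : (15 * (1 + a) + 3 * (8 * Real.log 2 + 6 * a)) ^ 2 ≤ (66 * (a + c)) ^ 2 :=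
    pow_le_pow_left₀ e5 e4 2
  have e7 : 2 * (1 + c) ≤ 4 * (a + c) ^ 2 := by nlinarith
  have e8 : (15 * (1 + a) + 3 * (8 * Real.log 2 + 6 * a)) ^ 2 + 2 * (1 + c) ≤
      4360 * (a + c) ^ 2 := by nlinarith
  calc 70000 * (n : ℝ) ^ 2 * ((15 * (1 + a) + 3 * (8 * Real.log 2 + 6 * a)) ^ 2 + 2 * (1 + c))
      ≤ 70000 * (n : ℝ) ^ 2 * (4360 * (a + c) ^ 2) :=
        mul_le_mul_of_nonneg_left e8 (by positivity)
    _ = 70000 * 4360 * (n : ℝ) ^ 2 * (a + c) ^ 2 := by ring

end Pool.Agent.Results.MP_9b7f10_lc.RandomSystemsQuadratic
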